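import Pool.Agent.H38.EQ.Targets

/-!
Equidistribution of admissible tuples (`MP_7ecdd4_nt`): row SQD.
-/

set_option autoImplicit false

open Finset

open Pool.Agent.H38.RB Pool.Agent.H38.PS Pool.Agent.H82.AS

namespace Pool.Agent.H30.EQ

theorem step_rpow (u : ℝ) (hu : 0 < u) (hu1 : u ≤ 1) (n : ℕ) :
    u⁻¹ * (n : ℝ) ^ u + ((n + 1 : ℕ) : ℝ) ^ (-(1 - u)) ≤ u⁻¹ * ((n + 1 : ℕ) : ℝ) ^ u := by
  have hn : (0 : ℝ) ≤ n := Nat.cast_nonneg n
  have hn1 : (0 : ℝ) < ((n + 1 : ℕ) : ℝ) := by positivity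
  have hs : -1 ≤ -(1 / ((n + 1 : ℕ) : ℝ)) := by
    have : 1 / ((n + 1 : ℕ) : ℝ) ≤ 1 := by
      rw [div_le_one hn1]
      push_cast; linarith
    linarith
  have h1 := rpow_one_add_le_one_add_mul_self hs hu.le hu1
  have h2 : (n : ℝ) = ((n + 1 : ℕ) : ℝ) * (1 + -(1 / ((n + 1 : ℕ) : ℝ))) := by
    field_simp
    push_cast; ring
  have h3 : (0 : ℝ) ≤ 1 + -(1 / ((n + 1 : ℕ) : ℝ)) := by linarith
  have h4 : (n : ℝ) ^ u = ((n + 1 : ℕ) : ℝ) ^ u * (1 + -(1 / ((n + 1 : ℕ) : ℝ))) ^ u := by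
    rw [← Real.mul_rpow hn1.le h3, ← h2]
  have h5 : ((n + 1 : ℕ) : ℝ) ^ (-(1 - u)) = ((n + 1 : ℕ) : ℝ) ^ u / ((n + 1 : ℕ) : ℝ) := by
    rw [show -(1 - u) = u - 1 by ring, Real.rpow_sub hn1, Real.rpow_one]
  have h6 : 0 < ((n + 1 : ℕ) : ℝ) ^ u := Real.rpow_pos_of_pos hn1 _
  have h7 := mul_le_mul_of_nonneg_left h1 h6.le
  rw [← h4] at h7
  have h8 := mul_le_mul_of_nonneg_left h7 (inv_pos.2 hu).le
  rw [h5]
  have h9 : u⁻¹ * (((n + 1 : ℕ) : ℝ) ^ u * (1 + u * -(1 / ((n + 1 : ℕ) : ℝ)))) =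
      u⁻¹ * ((n + 1 : ℕ) : ℝ) ^ u - ((n + 1 : ℕ) : ℝ) ^ u / ((n + 1 : ℕ) : ℝ) := by
    field_simp
    ring
  linarith

theorem sum_rpow_le (u : ℝ) (hu : 0 < u) (hu1 : u ≤ 1) (N : ℕ) :
    ∑ r ∈ Icc 1 N, (r : ℝ) ^ (-(1 - u)) ≤ u⁻¹ * (N : ℝ) ^ u := by
  induction N with
  | zero => simp [Real.zero_rpow hu.ne']
  | succ n ih =>
    rw [Finset.sum_Icc_succ_top (by omega)]
    have := step_rpow u hu hu1 n
    linarith

theorem pf_SQD (hrdc : T_RDC) (hsqb : T_SQB) : Pool.Agent.H38.EQ.T_SQD := by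
  classical
  intro n hn ε hε
  obtain ⟨C, hC, hcard⟩ := hrdc ε hε
  have hn0 : (0 : ℝ) < n := by
    have : (3 : ℝ) ≤ n := by exact_mod_cast hn
    linarith
  have hn3 : (3 : ℝ) ≤ n := by exact_mod_cast hn
  set u : ℝ := 1 / (n : ℝ) with hu
  have hu0 : 0 < u := by positivity
  have hu1 : u ≤ 1 := by
    rw [hu, div_le_one hn0]
    linarith
  have hui : u⁻¹ = (n : ℝ) := by rw [hu]; simp
  refine ⟨2 * n * C, by positivity, fun W F hW hF => ?_⟩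
  have hW0 : (0 : ℝ) < W := by linarith
  set R : ℕ := ⌊W ^ (1 / 2 : ℝ)⌋₊ with hR
  have hWh : (0 : ℝ) ≤ W ^ (1 / 2 : ℝ) := Real.rpow_nonneg hW0.le _
  have hRle : (R : ℝ) ≤ W ^ (1 / 2 : ℝ) := Nat.floor_le hWh
  have hD0 : ∀ D ∈ F, (0 : ℝ) < D := fun D hD => by
    have := (hF D hD).2.1
    linarith
  have hD1 : ∀ D ∈ F, 1 ≤ D := fun D hD => by
    have := hD0 D hD
    exact_mod_cast this
  have hmaps : ∀ D ∈ F, pd D.primeFactors ∈ Icc 1 R := by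
    intro D hD
    obtain ⟨h1, -, h3⟩ := hF D hD
    have h4 := (hsqb D (hD1 D hD)).2.2.2.2.2.2 h1
    rw [Finset.mem_Icc]
    constructor
    · unfold pd
      exact Nat.one_le_iff_ne_zero.2 (Finset.prod_ne_zero_iff.2 fun p hp =>
        (Nat.prime_of_mem_primeFactors hp).ne_zero)
    · rw [hR]
      refine Nat.le_floor ?_
      have h5 : ((pd D.primeFactors : ℕ) : ℝ) ^ 2 ≤ W := by
        refine le_trans ?_ h3
        exact_mod_cast h4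
      have h6 := Real.rpow_le_rpow (sq_nonneg _) h5 (by norm_num : (0 : ℝ) ≤ 1 / 2)
      rwa [← Real.sqrt_eq_rpow, Real.sqrt_sq (Nat.cast_nonneg _)] at h6
  have hfib : ∀ r ∈ Icc 1 R, ((F.filter fun D => pd D.primeFactors = r).card : ℝ) ≤ C * W ^ ε := by
    intro r _
    refine hcard r W _ hW fun n hn => ?_
    rw [Finset.mem_filter] at hn
    exact ⟨hD1 n hn.1, (hF n hn.1).2.2, hn.2⟩
  have hCW : 0 ≤ C * W ^ ε := mul_nonneg hC.le (Real.rpow_nonneg hW0.le _)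
  have hterm : ∀ D ∈ F, ex D ^ (1 - u) / D ≤
      ((pd D.primeFactors : ℕ) : ℝ) ^ (-(1 - u)) * (W / 2) ^ (-u) := by
    intro D hD
    have hD1 : (0 : ℝ) < D := hD0 D hD
    have hr1 : (0 : ℝ) < ((pd D.primeFactors : ℕ) : ℝ) := by
      have := (Finset.mem_Icc.1 (hmaps D hD)).1
      exact_mod_cast this
    have h1 : ex D ^ (1 - u) / D = ((pd D.primeFactors : ℕ) : ℝ) ^ (-(1 - u)) *
        (D : ℝ) ^ (-u) := by
      unfold ex
      rw [Real.div_rpow hD1.le hr1.le, Real.rpow_neg hr1.le,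
        show -u = (1 - u) - 1 by ring, Real.rpow_sub hD1 (1 - u) 1, Real.rpow_one]
      field_simp
    rw [h1]
    refine mul_le_mul_of_nonneg_left ?_ (Real.rpow_nonneg hr1.le _)
    exact Real.rpow_le_rpow_of_nonpos (by positivity) (hF D hD).2.1.le (by linarith)
  have h1 : ∑ D ∈ F, ex D ^ (1 - u) / D ≤
      ∑ D ∈ F, ((pd D.primeFactors : ℕ) : ℝ) ^ (-(1 - u)) * (W / 2) ^ (-u) :=
    Finset.sum_le_sum hterm
  have h2 : ∑ D ∈ F, ((pd D.primeFactors : ℕ) : ℝ) ^ (-(1 - u)) * (W / 2) ^ (-u) =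
      ∑ r ∈ Icc 1 R, ∑ D ∈ F.filter (fun D => pd D.primeFactors = r),
        ((pd D.primeFactors : ℕ) : ℝ) ^ (-(1 - u)) * (W / 2) ^ (-u) :=
    (Finset.sum_fiberwise_of_maps_to hmaps _).symm
  have h3 : ∑ r ∈ Icc 1 R, ∑ D ∈ F.filter (fun D => pd D.primeFactors = r),
        ((pd D.primeFactors : ℕ) : ℝ) ^ (-(1 - u)) * (W / 2) ^ (-u) ≤
      ∑ r ∈ Icc 1 R, (C * W ^ ε * (W / 2) ^ (-u)) * (r : ℝ) ^ (-(1 - u)) := by
    refine Finset.sum_le_sum fun r hr => ?_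
    have h4 : ∑ D ∈ F.filter (fun D => pd D.primeFactors = r),
        ((pd D.primeFactors : ℕ) : ℝ) ^ (-(1 - u)) * (W / 2) ^ (-u) =
        ∑ D ∈ F.filter (fun D => pd D.primeFactors = r),
        (r : ℝ) ^ (-(1 - u)) * (W / 2) ^ (-u) := by
      refine Finset.sum_congr rfl fun D hD => ?_
      rw [(Finset.mem_filter.1 hD).2]
    rw [h4, Finset.sum_const, nsmul_eq_mul]
    have h5 : 0 ≤ (r : ℝ) ^ (-(1 - u)) * (W / 2) ^ (-u) :=
      mul_nonneg (Real.rpow_nonneg (Nat.cast_nonneg _) _) (Real.rpow_nonneg (by positivity) _)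
    calc ((F.filter fun D => pd D.primeFactors = r).card : ℝ) *
          ((r : ℝ) ^ (-(1 - u)) * (W / 2) ^ (-u)) ≤
          (C * W ^ ε) * ((r : ℝ) ^ (-(1 - u)) * (W / 2) ^ (-u)) :=
        mul_le_mul_of_nonneg_right (hfib r hr) h5
      _ = _ := by ring
  rw [← Finset.mul_sum] at h3
  have h6 : ∑ r ∈ Icc 1 R, (r : ℝ) ^ (-(1 - u)) ≤ n * W ^ (u / 2) := by
    have h7 := Real.rpow_le_rpow (Nat.cast_nonneg R) hRle hu0.le
    rw [← Real.rpow_mul hW0.le] at h7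
    have h8 : (1 / 2 : ℝ) * u = u / 2 := by ring
    rw [h8] at h7
    have h9 := sum_rpow_le u hu0 hu1 R
    rw [hui] at h9
    exact h9.trans (mul_le_mul_of_nonneg_left h7 hn0.le)
  have hpos : 0 ≤ C * W ^ ε * (W / 2) ^ (-u) :=
    mul_nonneg hCW (Real.rpow_nonneg (by positivity) _)
  have h9 : (W / 2) ^ (-u) ≤ 2 * W ^ (-u) := by
    rw [Real.div_rpow hW0.le (by norm_num), Real.rpow_neg (by norm_num : (0 : ℝ) ≤ 2), div_inv_eq_mul,
      mul_comm]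
    refine mul_le_mul_of_nonneg_right ?_ (Real.rpow_nonneg hW0.le _)
    calc (2 : ℝ) ^ u ≤ 2 ^ (1 : ℝ) :=
          Real.rpow_le_rpow_of_exponent_le (by norm_num) hu1
      _ = 2 := Real.rpow_one 2
  have hWu : 0 ≤ W ^ (u / 2) := Real.rpow_nonneg hW0.le _
  calc ∑ D ∈ F, ex D ^ (1 - u) / D
      ≤ (C * W ^ ε * (W / 2) ^ (-u)) * ∑ r ∈ Icc 1 R, (r : ℝ) ^ (-(1 - u)) := by
        linarith
    _ ≤ (C * W ^ ε * (W / 2) ^ (-u)) * (n * W ^ (u / 2)) :=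
        mul_le_mul_of_nonneg_left h6 hpos
    _ ≤ (C * W ^ ε * (2 * W ^ (-u))) * (n * W ^ (u / 2)) := by
        refine mul_le_mul_of_nonneg_right ?_ (by positivity)
        exact mul_le_mul_of_nonneg_left h9 hCW
    _ = 2 * n * C * (W ^ ε * (W ^ (-u) * W ^ (u / 2))) := by ring
    _ = 2 * n * C * W ^ (-(1 / (2 * (n : ℝ))) + ε) := by
        rw [← Real.rpow_add hW0, ← Real.rpow_add hW0]
        congr 2
        rw [hu]
        field_simp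
        ring

end Pool.Agent.H30.EQ
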